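import Pool.Agent.MNE.StmtsB

/-!
# Row INJ: exponential sums small at `2^D` points
-/

set_option autoImplicit false

open scoped BigOperators

namespace Pool.Agent.MNE.H24

theorem exp_abs_le {x y Ω : ℝ} (hx0 : 0 ≤ x) (hx : x ≤ Ω) (hy : |y| ≤ 1) :
    Real.exp (x * y) ≤ Real.exp Ω := by
  apply Real.exp_le_exp.2
  have h1 : x * y ≤ |x * y| := le_abs_self _
  rw [abs_mul, abs_of_nonneg hx0] at h1
  have h2 : x * |y| ≤ x * 1 := mul_le_mul_of_nonneg_left hy hx0
  linarith

theorem exp_neg_abs_le {x y Ω : ℝ} (hx0 : 0 ≤ x) (hx : x ≤ Ω) (hy : |y| ≤ 1) :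
    Real.exp (-(x * y)) ≤ Real.exp Ω := by
  have h := exp_abs_le (y := -y) hx0 hx (by rwa [abs_neg])
  rwa [mul_neg] at h

theorem inj : InjStmt := by
  intro D
  induction D with
  | zero =>
    intro ω c μ γ δ τ Ω hγ hγ1 hδ hδ1 hτ hΩ hgap hω hμ hsep hsm i
    have hi : i = 0 := Fin.ext (by have := i.2; show i.1 = 0; omega)
    subst hi
    have h0 := hsm ⟨0, by norm_num⟩
    rw [Fin.sum_univ_one, abs_mul, abs_of_pos (Real.exp_pos _)] at h0
    have h1 := exp_neg_abs_le (hω 0).1 (hω 0).2 (hμ ⟨0, by norm_num⟩)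
    set z := ω 0 * μ ⟨0, by norm_num⟩ with hz
    have h2 : |c 0| ≤ τ * Real.exp Ω := by
      calc |c 0| = (|c 0| * Real.exp z) * Real.exp (-z) := by
            rw [mul_assoc, ← Real.exp_add]; simp
        _ ≤ τ * Real.exp Ω := mul_le_mul h0 h1 (Real.exp_pos _).le hτ
    have h3 : Real.exp Ω ≤ 2 * (((0 : ℕ) : ℝ) + 1) * Real.exp (2 * Ω) / (γ * δ) := by
      have h4 : γ * δ ≤ 1 := by nlinarith
      have h5 : 0 < γ * δ := mul_pos hγ hδ
      rw [le_div_iff₀ h5]
      have h6 : Real.exp Ω ≤ Real.exp (2 * Ω) := Real.exp_le_exp.2 (by linarith)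
      have h7 := Real.exp_pos Ω
      push_cast
      nlinarith
    calc |c 0| ≤ τ * Real.exp Ω := h2
      _ ≤ τ * (2 * (((0 : ℕ) : ℝ) + 1) * Real.exp (2 * Ω) / (γ * δ)) :=
          mul_le_mul_of_nonneg_left h3 hτ
      _ = τ * (2 * (((0 : ℕ) : ℝ) + 1) * Real.exp (2 * Ω) / (γ * δ)) ^ (0 + 1) := by
          rw [zero_add, pow_one]
  | succ D ih =>
    intro ω c μ γ δ τ Ω hγ hγ1 hδ hδ1 hτ hΩ hgap hω hμ hsep hsm
    -- the reduced sum
    set g : ℝ → ℝ := fun t => ∑ i, c i * Real.exp ((ω i - ω 0) * t) with hg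
    have hw0 := hω 0
    have hgk : ∀ k, |g (μ k)| ≤ τ * Real.exp Ω := by
      intro k
      have e1 : g (μ k) = (∑ i, c i * Real.exp (ω i * μ k)) * Real.exp (-(ω 0 * μ k)) := by
        rw [hg, Finset.sum_mul]
        refine Finset.sum_congr rfl fun i _ => ?_
        rw [mul_assoc, ← Real.exp_add]
        congr 2
        ring
      rw [e1, abs_mul, abs_of_pos (Real.exp_pos _)]
      exact mul_le_mul (hsm k) (exp_neg_abs_le hw0.1 hw0.2 (hμ k)) (Real.exp_pos _).le hτ
    set c' : Fin (D + 1) → ℝ := fun i => c i.succ * (ω i.succ - ω 0) with hc'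
    have hder : ∀ t, HasDerivAt g (∑ i, c' i * Real.exp ((ω i.succ - ω 0) * t)) t := by
      intro t
      have h1 : HasDerivAt g (∑ i, c i * (Real.exp ((ω i - ω 0) * t) * (ω i - ω 0))) t := by
        rw [hg]
        refine HasDerivAt.fun_sum fun i _ => ?_
        refine HasDerivAt.const_mul _ ?_
        have h2 : HasDerivAt (fun t : ℝ => (ω i - ω 0) * t) (ω i - ω 0) t := by
          simpa using (hasDerivAt_id t).const_mul (ω i - ω 0)
        exact h2.exp
      refine h1.congr_deriv ?_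
      rw [Fin.sum_univ_succ]
      rw [sub_self, mul_zero, mul_zero, zero_add]
      refine Finset.sum_congr rfl fun i _ => ?_
      rw [hc']
      ring
    -- the points
    have hpw : 2 ^ (D + 1) = 2 * 2 ^ D := by rw [pow_succ]; ring
    have hν : ∀ j : Fin (2 ^ D), ∃ ν : ℝ, μ ⟨2 * j.1, by have := j.2; omega⟩ < ν ∧
        ν < μ ⟨2 * j.1 + 1, by have := j.2; omega⟩ ∧
        |∑ i, c' i * Real.exp ((ω i.succ - ω 0) * ν)| ≤ 2 * τ * Real.exp Ω / δ := by
      intro j
      have hj := j.2
      set a := μ ⟨2 * j.1, by omega⟩ with ha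
      set b := μ ⟨2 * j.1 + 1, by omega⟩ with hb
      have hab : a + δ ≤ b := hsep _ _ (by
        rw [Fin.lt_def]
        show 2 * j.1 < 2 * j.1 + 1
        omega)
      have hab' : a < b := by linarith
      obtain ⟨ν, hν, hν'⟩ := exists_hasDerivAt_eq_slope g
        (fun t => ∑ i, c' i * Real.exp ((ω i.succ - ω 0) * t)) hab'
        (fun t _ => (hder t).continuousAt.continuousWithinAt) (fun t _ => hder t)
      refine ⟨ν, hν.1, hν.2, ?_⟩
      rw [hν', abs_div, abs_of_pos (by linarith : 0 < b - a)]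
      have h1 : |g b - g a| ≤ 2 * τ * Real.exp Ω := by
        have h2 := abs_sub (g b) (g a)
        have h3 := hgk ⟨2 * j.1, by omega⟩
        have h4 := hgk ⟨2 * j.1 + 1, by omega⟩
        linarith
      have h5 : 0 ≤ 2 * τ * Real.exp Ω := by positivity
      rw [div_le_div_iff₀ (by linarith) hδ]
      nlinarith [abs_nonneg (g b - g a)]
    choose ν hν1 hν2 hν3 using hν
    have hres := ih (fun i => ω i.succ - ω 0) c' ν γ δ (2 * τ * Real.exp Ω / δ) Ω hγ hγ1 hδ hδ1
      (by positivity) hΩ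
      (by
        intro i j hij
        have := hgap i.succ j.succ (Fin.succ_lt_succ_iff.2 hij)
        show ω i.succ - ω 0 + γ ≤ ω j.succ - ω 0
        linarith)
      (by
        intro i
        have h1 := hgap 0 i.succ (Fin.succ_pos i)
        have h2 := hω i.succ
        constructor
        · show 0 ≤ ω i.succ - ω 0
          linarith
        · show ω i.succ - ω 0 ≤ Ω
          linarith)
      (by
        intro j
        have h1 := hν1 j
        have h2 := hν2 j
        have h3 := abs_le.1 (hμ ⟨2 * j.1, by have := j.2; omega⟩)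
        have h4 := abs_le.1 (hμ ⟨2 * j.1 + 1, by have := j.2; omega⟩)
        rw [abs_le]
        constructor <;> linarith)
      (by
        intro j j' hjj
        have h1 := hν2 j
        have h2 := hν1 j'
        have h3 := hsep ⟨2 * j.1 + 1, by have := j.2; omega⟩ ⟨2 * j'.1, by have := j'.2; omega⟩
          (by
            rw [Fin.lt_def] at hjj ⊢
            show 2 * j.1 + 1 < 2 * j'.1
            omega)
        linarith)
      hν3
    have hδγ : γ * δ ≤ 1 := by nlinarith
    have hδγ0 : 0 < γ * δ := mul_pos hγ hδ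
    set q : ℝ := 2 * Real.exp (2 * Ω) / (γ * δ) with hq
    have hexp1 : 1 ≤ Real.exp Ω := Real.one_le_exp hΩ
    have hexp2 : Real.exp (2 * Ω) = Real.exp Ω * Real.exp Ω := by
      rw [← Real.exp_add]; ring_nf
    have hq1 : 2 * Real.exp (2 * Ω) ≤ q := by
      rw [hq, le_div_iff₀ hδγ0]
      have := Real.exp_pos (2 * Ω)
      nlinarith
    have hqe : Real.exp Ω ≤ q := by
      have h : Real.exp Ω ≤ Real.exp (2 * Ω) := Real.exp_le_exp.2 (by linarith)
      have := Real.exp_pos (2 * Ω)
      linarith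
    have hq0 : 1 ≤ q := hexp1.trans hqe
    have hB : 2 * ((D : ℝ) + 1) * Real.exp (2 * Ω) / (γ * δ) = ((D : ℝ) + 1) * q := by
      rw [hq]; ring
    have hB' : 2 * (((D + 1 : ℕ) : ℝ) + 1) * Real.exp (2 * Ω) / (γ * δ) = ((D : ℝ) + 2) * q := by
      rw [hq]; push_cast; ring
    rw [hB'] at *
    simp only [hB] at hres
    have hDn : (0 : ℝ) ≤ D := Nat.cast_nonneg D
    set X : ℝ := (((D : ℝ) + 1) * q) ^ (D + 1) with hX
    set Y : ℝ := (((D : ℝ) + 2) * q) ^ (D + 1) with hY
    have hXY : X ≤ Y := by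
      rw [hX, hY]
      gcongr
      linarith
    have hX0 : 0 ≤ X := by rw [hX]; positivity
    have hY1 : 1 ≤ Y := by
      rw [hY]
      apply one_le_pow₀
      nlinarith
    have hpow : (((D : ℝ) + 2) * q) ^ (D + 1 + 1) = (((D : ℝ) + 2) * q) * Y := by
      rw [pow_succ, hY]; ring
    -- the coefficients `i ≥ 1`
    have hci : ∀ i : Fin (D + 1), |c i.succ| ≤ τ * (2 * Real.exp Ω / (γ * δ)) * X := by
      intro i
      have h1 := hres i
      rw [hc', abs_mul] at h1
      have h2 := hgap 0 i.succ (Fin.succ_pos i)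
      have h3 : γ ≤ |ω i.succ - ω 0| := by
        rw [abs_of_nonneg (by linarith)]
        linarith
      have h4 : |c i.succ| * γ ≤ 2 * τ * Real.exp Ω / δ * X :=
        (mul_le_mul_of_nonneg_left h3 (abs_nonneg _)).trans h1
      have h5 : |c i.succ| ≤ 2 * τ * Real.exp Ω / δ * X / γ := by
        rw [le_div_iff₀ hγ]
        exact h4
      refine h5.trans (le_of_eq ?_)
      field_simp
    intro i
    rw [hpow]
    refine Fin.cases ?_ (fun i => ?_) i
    · -- `c 0`
      have h1 := hgk ⟨0, by positivity⟩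
      set t := μ ⟨0, by positivity⟩ with ht
      have e1 : g t = c 0 + ∑ i : Fin (D + 1), c i.succ * Real.exp ((ω i.succ - ω 0) * t) := by
        rw [hg]
        simp only
        rw [Fin.sum_univ_succ, sub_self, zero_mul, Real.exp_zero, mul_one]
      have h2 : |∑ i : Fin (D + 1), c i.succ * Real.exp ((ω i.succ - ω 0) * t)| ≤
          ((D : ℝ) + 1) * (τ * (2 * Real.exp Ω / (γ * δ)) * X * Real.exp Ω) := by
        calc |∑ i : Fin (D + 1), c i.succ * Real.exp ((ω i.succ - ω 0) * t)|
            ≤ ∑ i : Fin (D + 1), |c i.succ * Real.exp ((ω i.succ - ω 0) * t)| :=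
              Finset.abs_sum_le_sum_abs _ _
          _ ≤ ∑ _i : Fin (D + 1), τ * (2 * Real.exp Ω / (γ * δ)) * X * Real.exp Ω := by
              refine Finset.sum_le_sum fun i _ => ?_
              rw [abs_mul, abs_of_pos (Real.exp_pos _)]
              refine mul_le_mul (hci i) ?_ (Real.exp_pos _).le (by positivity)
              have h3 := hgap 0 i.succ (Fin.succ_pos i)
              exact exp_abs_le (by linarith) (by linarith [(hω i.succ).2]) (hμ _)
          _ = ((D : ℝ) + 1) * (τ * (2 * Real.exp Ω / (γ * δ)) * X * Real.exp Ω) := by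
              rw [Finset.sum_const, Finset.card_univ, Fintype.card_fin, nsmul_eq_mul]
              push_cast
              ring
      have h3 : |c 0| ≤ τ * Real.exp Ω +
          ((D : ℝ) + 1) * (τ * (2 * Real.exp Ω / (γ * δ)) * X * Real.exp Ω) := by
        have e2 : c 0 = g t - ∑ i : Fin (D + 1), c i.succ * Real.exp ((ω i.succ - ω 0) * t) := by
          rw [e1]; ring
        rw [e2]
        refine (abs_sub _ _).trans ?_
        linarith
      have e3 : ((D : ℝ) + 1) * (τ * (2 * Real.exp Ω / (γ * δ)) * X * Real.exp Ω) =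
          τ * (((D : ℝ) + 1) * q * X) := by
        rw [hq, hexp2]; ring
      rw [e3] at h3
      refine h3.trans ?_
      have h4 : Real.exp Ω + ((D : ℝ) + 1) * q * X ≤ ((D : ℝ) + 2) * q * Y := by
        have h5 : ((D : ℝ) + 1) * q * X ≤ ((D : ℝ) + 1) * q * Y :=
          mul_le_mul_of_nonneg_left hXY (by positivity)
        have h6 : Real.exp Ω ≤ q * Y := by nlinarith
        nlinarith
      calc τ * Real.exp Ω + τ * (((D : ℝ) + 1) * q * X)
          = τ * (Real.exp Ω + ((D : ℝ) + 1) * q * X) := by ring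
        _ ≤ τ * (((D : ℝ) + 2) * q * Y) := mul_le_mul_of_nonneg_left h4 hτ
    · refine (hci i).trans ?_
      have h1 : 2 * Real.exp Ω / (γ * δ) ≤ q := by
        rw [hq]
        have h : Real.exp Ω ≤ Real.exp (2 * Ω) := Real.exp_le_exp.2 (by linarith)
        gcongr
      have h2 : 2 * Real.exp Ω / (γ * δ) * X ≤ ((D : ℝ) + 2) * q * Y := by
        have h3 : 2 * Real.exp Ω / (γ * δ) * X ≤ q * Y :=
          mul_le_mul h1 hXY hX0 (by linarith)
        have h4 : q * Y ≤ ((D : ℝ) + 2) * q * Y := by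
          have : 0 ≤ q * Y := by positivity
          nlinarith
        linarith
      calc τ * (2 * Real.exp Ω / (γ * δ)) * X = τ * (2 * Real.exp Ω / (γ * δ) * X) := by ring
        _ ≤ τ * (((D : ℝ) + 2) * q * Y) := mul_le_mul_of_nonneg_left h2 hτ

end Pool.Agent.MNE.H24
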